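import Mathlib

set_option autoImplicit false

/-! # A space `L_{21,2}` of logarithmic differential forms in characteristic `3`

The forms are `A/Δ dx` with `A` in the `𝔽₃`-span of `A0` and `θ A0 + B`, `θ³ = θ - 1`. -/

namespace Pool.Agent.H972R2.LSpace

open Polynomial

variable {k : Type} [Field k]

/-- `A0`. -/
noncomputable def A0 : k[X] := X ^ 7 - X ^ 6 + X ^ 5 - X

/-- `B`. -/
noncomputable def B : k[X] := X ^ 5 - X ^ 4 - X ^ 3 + X ^ 2 - 1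

/-- `A_t = t A0 + B`. -/
noncomputable def A (θ : k) : k[X] := C θ * A0 + B

/-- numerator `P` for `A_t`. -/
noncomputable def P (θ : k) : k[X] :=
  C θ * X ^ 9 + (-C θ + 1) * X ^ 7 + X ^ 6 + (-C θ ^ 2 + C θ - 1) * X ^ 4 - C θ * X ^ 3
    + (C θ ^ 2 - 1) * X

/-- denominator `R` for `A_t`. -/
noncomputable def R (θ : k) : k[X] :=
  (-C θ ^ 2 - C θ + 1) * X ^ 12 - X ^ 10 + (-C θ ^ 2 - C θ - 1) * X ^ 9 - C θ ^ 2 * X ^ 7
    + (-C θ ^ 2 - C θ) * X ^ 6 + (C θ - 1) * X ^ 4 + X ^ 3 + C θ ^ 2 * X - C θ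

/-- numerator `P` for `A0`. -/
noncomputable def P0 : k[X] := X ^ 3 - X + 1

/-- denominator `R` for `A0`. -/
noncomputable def R0 : k[X] :=
  X ^ 18 - X ^ 16 + X ^ 15 - X ^ 6 + X ^ 4 + X ^ 3 + X + 1

lemma three [CharP k 3] : (3 : k[X]) = 0 := by
  have : ((3 : ℕ) : k[X]) = 0 := CharP.cast_eq_zero _ 3
  exact_mod_cast this

lemma ht {θ : k} (h : θ ^ 3 - θ + 1 = 0) : (C θ : k[X]) ^ 3 - C θ + 1 = 0 := by
  rw [← C_pow, ← C_sub, ← C_1, ← C_add, h, C_0]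

lemma dP [CharP k 3] (θ : k) : derivative (P θ) =
    (-C θ + 1) * X ^ 6 + (-C θ ^ 2 + C θ - 1) * X ^ 3 + (C θ ^ 2 - 1) := by
  have h3 := three (k := k)
  unfold P
  rw [← C_pow]
  simp only [derivative_add, derivative_sub, derivative_mul, derivative_C, derivative_X_pow,
    derivative_X, derivative_one, derivative_neg, zero_mul, zero_add, neg_zero, sub_zero,
    add_zero, sub_self]
  push_cast
  simp only [map_ofNat]
  linear_combination (3 * C θ * X ^ 8 + 2 * (-C θ + 1) * X ^ 6 + 2 * X ^ 5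
    + (-C (θ ^ 2) + C θ - 1) * X ^ 3 - C θ * X ^ 2) * h3

lemma dR [CharP k 3] (θ : k) : derivative (R θ) =
    - X ^ 9 - C θ ^ 2 * X ^ 6 + (C θ - 1) * X ^ 3 + C θ ^ 2 := by
  have h3 := three (k := k)
  unfold R
  rw [← C_pow]
  simp only [derivative_add, derivative_sub, derivative_mul, derivative_C, derivative_X_pow,
    derivative_X, derivative_one, derivative_neg, zero_mul, zero_add, neg_zero, sub_zero,
    add_zero, sub_self]
  push_cast
  simp only [map_ofNat]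
  linear_combination (4 * (-C (θ ^ 2) - C θ + 1) * X ^ 11 - 3 * X ^ 9
    + 3 * (-C (θ ^ 2) - C θ - 1) * X ^ 8 - 2 * C (θ ^ 2) * X ^ 6
    + 2 * (-C (θ ^ 2) - C θ) * X ^ 5 + (C θ - 1) * X ^ 3 + X ^ 2) * h3

lemma dP0 [CharP k 3] : derivative (P0 : k[X]) = - 1 := by
  have h3 := three (k := k)
  unfold P0
  simp only [derivative_add, derivative_sub, derivative_X_pow, derivative_X, derivative_one]
  push_cast
  simp only [map_ofNat]
  linear_combination X ^ 2 * h3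

lemma dR0 [CharP k 3] : derivative (R0 : k[X]) = - X ^ 15 + X ^ 3 + 1 := by
  have h3 := three (k := k)
  unfold R0
  simp only [derivative_add, derivative_sub, derivative_X_pow, derivative_X, derivative_one]
  push_cast
  simp only [map_ofNat]
  linear_combination (6 * X ^ 17 - 5 * X ^ 15 + 5 * X ^ 14 - 2 * X ^ 5 + X ^ 3 + X ^ 2) * h3

lemma wr [CharP k 3] {θ : k} (h : θ ^ 3 - θ + 1 = 0) :
    derivative (P θ) * R θ - P θ * derivative (R θ) = 1 := by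
  have h3 := three (k := k)
  have hθ := ht h
  rw [dP, dR]
  unfold P R
  generalize (C θ : k[X]) = t at *
  linear_combination ((t-1)*X^15 + t^2*X^12 + (-t+2)*X^9 + (t-1)*X^3) * h3
    + (1*X^18 + (t+2)*X^15 + (-3)*X^9 + (-t-1)*X^6 + 2*X^3 + (-1)) * hθ

lemma prod [CharP k 3] {θ : k} (h : θ ^ 3 - θ + 1 = 0) :
    P θ * R θ = - (A0 * (A θ ^ 2 - A0 ^ 2)) := by
  have h3 := three (k := k)
  have hθ := ht h
  unfold P R A A0 B
  generalize (C θ : k[X]) = t at *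
  linear_combination ((-t^2+1)*X^20 + (2*t^2-2)*X^19 + (-3*t^2-3*t+3)*X^18
    + (2*t^2+3*t-2)*X^17 + (-t^2-t-1)*X^16 + (-t^2-2*t+1)*X^15 + (2*t^2+2*t-1)*X^14
    + (-2*t^2-2*t+1)*X^13 + (2*t^2+2*t-2)*X^12 + (-t^2+3)*X^11 + (-t-1)*X^10
    + (t^2+3*t-1)*X^9 + (-t+2)*X^8 + (t^2-1)*X^7 + 1*X^6 + (-t^2-1)*X^5 + (t-1)*X^4 + 1*X^3
    + (-t)*X^2) * h3
    + ((-1)*X^21 + 1*X^19 + (-1)*X^18 + t*X^16 + 1*X^14 + 1*X^12 + (t-1)*X^11 + 1*X^10
    + 1*X^9 + (-t-2)*X^8 + (-t-1)*X^7 + (-t+2)*X^5 + t*X^2 + (-1)*X) * hθ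

lemma wr0 [CharP k 3] :
    derivative (P0 : k[X]) * R0 - P0 * derivative R0 = 1 := by
  have h3 := three (k := k)
  rw [dP0, dR0]
  unfold P0 R0
  linear_combination ((-1)*X^3 + (-1)) * h3

lemma prod0 [CharP k 3] :
    (P0 : k[X]) * R0 = A0 ^ 3 + A0 ^ 2 * B - B ^ 3 := by
  have h3 := three (k := k)
  unfold P0 R0 A0 B
  linear_combination (1*X^20 + (-3)*X^19 + 4*X^18 + (-3)*X^17 + 1*X^16 + 2*X^15 + (-4)*X^14
    + 4*X^13 + (-1)*X^11 + (-2)*X^10 + 2*X^9 + 2*X^8 + (-5)*X^7 + 1*X^6 + 3*X^5 + (-2)*X^4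
    + 1*X^2) * h3

/-- the product of the four polynomials. -/
noncomputable def Δ : k[X] := A0 * (B ^ 3 - A0 ^ 2 * B - A0 ^ 3)

lemma delta0 [CharP k 3] : (Δ : k[X]) = - (A0 * (P0 * R0)) := by
  rw [prod0, Δ]; ring

lemma delta1 [CharP k 3] {θ : k} (h : θ ^ 3 - θ + 1 = 0) :
    (Δ : k[X]) = - (A θ * (P θ * R θ)) := by
  have h3 := three (k := k)
  have hθ := ht h
  rw [prod h, Δ]
  unfold A
  generalize (C θ : k[X]) = t at *
  linear_combination (-(A0 ^ 2 * t * B ^ 2) - A0 ^ 3 * t ^ 2 * B) * h3 - A0 ^ 4 * hθ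

end Pool.Agent.H972R2.LSpace
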